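import Pool.Agent.helper51.QS.SpecB

/-!
# Row qs:GE1 (MP_74cfa5_ag): general points
-/

set_option autoImplicit false

namespace Pool.Agent.QS

open Pool.Agent.PC MvPolynomial

universe u

/-- `f` times every differential is a combination of the `d b_i` -/
theorem GE1_tor (k B L : Type u) [Field k] [CommRing B] [IsDomain B] [Algebra k B]
    [Algebra.FiniteType k B] [Field L] [Algebra k L] [Algebra B L] [IsScalarTower k B L]
    [IsFractionRing B L] (e : ℕ) (hfin : Module.Finite L (Ω[L⁄k]))
    (hrank : Module.finrank L (Ω[L⁄k]) = e) :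
    ∃ (b : Fin e → B) (f : B), f ≠ 0 ∧ ∀ ω : Ω[B⁄k],
      f • ω ∈ Submodule.span B (Set.range fun i => KaehlerDifferential.D k B (b i)) := by
  classical
  set μ := KaehlerDifferential.map k k B L with hμ
  have hspan := KaehlerDifferential.span_range_map_derivation_of_isLocalization k B L
    (nonZeroDivisors B)
  obtain ⟨κ, a, ha, hsp, hli⟩ := exists_linearIndependent' L
    (fun b : B => μ (KaehlerDifferential.D k B b))
  have hsp' : Submodule.span L (Set.range ((fun b : B => μ (KaehlerDifferential.D k B b)) ∘ a))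
      = ⊤ := hsp.trans hspan
  have hκ : Finite κ := hli.finite
  let hκf : Fintype κ := Fintype.ofFinite κ
  have hcard : Fintype.card κ = e := by
    have h1 := finrank_span_eq_card hli
    rw [hsp', finrank_top, hrank] at h1
    exact h1.symm
  let E : Fin e ≃ κ := (Fintype.equivFinOfCardEq hcard).symm
  have hrange : Set.range (fun i : Fin e => μ (KaehlerDifferential.D k B (a (E i)))) =
      Set.range ((fun b : B => μ (KaehlerDifferential.D k B b)) ∘ a) := by
    have h1 : (fun i : Fin e => μ (KaehlerDifferential.D k B (a (E i)))) =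
        ((fun b : B => μ (KaehlerDifferential.D k B b)) ∘ a) ∘ E := rfl
    rw [h1, Set.range_comp, E.range_eq_univ, Set.image_univ]
  have key : ∀ ω : Ω[B⁄k], ∃ s : B, s ≠ 0 ∧ s • ω ∈
      Submodule.span B (Set.range fun i => KaehlerDifferential.D k B (a (E i))) := by
    intro ω
    have h1 : μ ω ∈ Submodule.span L
        (Set.range (fun i : Fin e => μ (KaehlerDifferential.D k B (a (E i))))) := by
      rw [hrange, hsp']
      exact Submodule.mem_top
    obtain ⟨l, hl⟩ := (Submodule.mem_span_range_iff_exists_fun L).1 h1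
    obtain ⟨s, hs⟩ := IsLocalization.exist_integer_multiples_of_finite (nonZeroDivisors B) l
    choose x hx using hs
    have h2 : μ ((s : B) • ω) = μ (∑ i, x i • KaehlerDifferential.D k B (a (E i))) := by
      rw [map_smul, ← hl, Finset.smul_sum, map_sum]
      apply Finset.sum_congr rfl
      intro i _
      rw [map_smul, ← smul_assoc, ← hx i, algebraMap_smul]
    obtain ⟨c, hc⟩ := (IsLocalizedModule.eq_iff_exists (nonZeroDivisors B) μ).1 h2
    refine ⟨(c : B) * (s : B), mul_ne_zero (nonZeroDivisors.coe_ne_zero c)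
      (nonZeroDivisors.coe_ne_zero s), ?_⟩
    rw [mul_smul]
    have h3 : (c : B) • (s : B) • ω =
        (c : B) • ∑ i, x i • KaehlerDifferential.D k B (a (E i)) := hc
    rw [h3]
    apply Submodule.smul_mem
    apply Submodule.sum_mem
    intro i _
    exact Submodule.smul_mem _ _ (Submodule.subset_span ⟨i, rfl⟩)
  choose s hs0 hs using key
  obtain ⟨S, hS⟩ := (inferInstance : Module.Finite B (Ω[B⁄k])).fg_top
  refine ⟨fun i => a (E i), ∏ ω ∈ S, s ω, Finset.prod_ne_zero_iff.2 (fun ω _ => hs0 ω), ?_⟩
  intro ω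
  have hω : ω ∈ Submodule.span B (S : Set (Ω[B⁄k])) := by
    rw [hS]
    exact Submodule.mem_top
  induction hω using Submodule.span_induction with
  | mem ω hω =>
    obtain ⟨r, hr⟩ := Finset.dvd_prod_of_mem s hω
    rw [hr, mul_comm, mul_smul]
    exact Submodule.smul_mem _ _ (hs ω)
  | zero => rw [smul_zero]; exact Submodule.zero_mem _
  | add x y _ _ hx hy => rw [smul_add]; exact Submodule.add_mem _ hx hy
  | smul r x _ hx => rw [smul_comm]; exact Submodule.smul_mem _ _ hx

/-- evaluation at a closed point -/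
theorem GE1_ev (k B : Type u) [Field k] [IsAlgClosed k] [CommRing B] [Algebra k B]
    [Algebra.FiniteType k B] (m : Ideal B) [hm : m.IsMaximal] :
    ∃ ev : B →ₐ[k] k, ∀ b : B, b - algebraMap k B (ev b) ∈ m := by
  let : Field (B ⧸ m) := Ideal.Quotient.field m
  have h1 : Module.Finite k (B ⧸ m) := finite_of_finite_type_of_isJacobsonRing k (B ⧸ m)
  have hbij : Function.Bijective (algebraMap k (B ⧸ m)) :=
    IsAlgClosed.algebraMap_bijective_of_isIntegral
  let E := AlgEquiv.ofBijective (Algebra.ofId k (B ⧸ m)) hbij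
  refine ⟨(E.symm : (B ⧸ m) →ₐ[k] k).comp (Ideal.Quotient.mkₐ k m), ?_⟩
  intro b
  rw [← Ideal.Quotient.mk_eq_mk_iff_sub_mem]
  have h2 : E (E.symm (Ideal.Quotient.mk m b)) = Ideal.Quotient.mk m b :=
    E.apply_symm_apply _
  exact h2.symm

/-- the derivation `b ↦ b - b(m)` -/
theorem GE1_der (k B : Type u) [Field k] [CommRing B] [Algebra k B] (m : Ideal B)
    (ev : B →ₐ[k] k) (hev : ∀ b : B, b - algebraMap k B (ev b) ∈ m) :
    ∃ δ : Derivation k B m.Cotangent, ∀ b : B,
      δ b = m.toCotangent ⟨b - algebraMap k B (ev b), hev b⟩ := by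
  let δ0 : B →ₗ[k] m.Cotangent :=
    { toFun := fun b => m.toCotangent ⟨b - algebraMap k B (ev b), hev b⟩
      map_add' := by
        intro x y
        rw [← map_add, Ideal.toCotangent_eq]
        have : ((x + y) - algebraMap k B (ev (x + y))) -
            ((x - algebraMap k B (ev x)) + (y - algebraMap k B (ev y))) = 0 := by
          rw [map_add, map_add]
          ring
        show ((x + y) - algebraMap k B (ev (x + y))) -
            ((x - algebraMap k B (ev x)) + (y - algebraMap k B (ev y))) ∈ m ^ 2
        rw [this]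
        exact Ideal.zero_mem _
      map_smul' := by
        intro c x
        have h1 : c • m.toCotangent ⟨x - algebraMap k B (ev x), hev x⟩ =
            (algebraMap k B c) • m.toCotangent ⟨x - algebraMap k B (ev x), hev x⟩ := by
          rw [algebraMap_smul]
        show m.toCotangent ⟨c • x - algebraMap k B (ev (c • x)), hev (c • x)⟩ =
          c • m.toCotangent ⟨x - algebraMap k B (ev x), hev x⟩
        rw [h1, ← map_smul, Ideal.toCotangent_eq]
        have : (c • x - algebraMap k B (ev (c • x))) -
            algebraMap k B c * (x - algebraMap k B (ev x)) = 0 := by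
          rw [map_smul, smul_eq_mul, map_mul, Algebra.smul_def]
          ring
        show (c • x - algebraMap k B (ev (c • x))) -
            algebraMap k B c * (x - algebraMap k B (ev x)) ∈ m ^ 2
        rw [this]
        exact Ideal.zero_mem _ }
  refine ⟨Derivation.mk' δ0 ?_, fun b => rfl⟩
  intro x y
  show m.toCotangent ⟨x * y - algebraMap k B (ev (x * y)), hev (x * y)⟩ =
    x • m.toCotangent ⟨y - algebraMap k B (ev y), hev y⟩ +
      y • m.toCotangent ⟨x - algebraMap k B (ev x), hev x⟩
  rw [← map_smul, ← map_smul, ← map_add, Ideal.toCotangent_eq]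
  have h1 : (x * y - algebraMap k B (ev (x * y))) -
      (x * (y - algebraMap k B (ev y)) + y * (x - algebraMap k B (ev x))) =
      -((x - algebraMap k B (ev x)) * (y - algebraMap k B (ev y))) := by
    rw [map_mul, map_mul]
    ring
  show (x * y - algebraMap k B (ev (x * y))) -
      (x * (y - algebraMap k B (ev y)) + y * (x - algebraMap k B (ev x))) ∈ m ^ 2
  rw [h1, pow_two]
  exact (Ideal.neg_mem_iff _).2 (Ideal.mul_mem_mul (hev x) (hev y))

theorem GE1 (hKDI : KDI_stmt.{u}) : GE1_stmt.{u} := by
  intro k B L _ _ _ _ _ _ _ _ _ _ _ e x hx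
  have : Algebra.EssFiniteType B L := Algebra.EssFiniteType.of_isLocalization L (nonZeroDivisors B)
  have : Algebra.EssFiniteType k L := Algebra.EssFiniteType.comp k B L
  obtain ⟨hfin, hrank⟩ := hKDI k L e x hx
  obtain ⟨b, f, hf, hfω⟩ := GE1_tor k B L e hfin hrank
  have hjac : IsJacobsonRing B := isJacobsonRing_of_finiteType (A := k)
  obtain ⟨m, hm, hfm⟩ : ∃ m : Ideal B, m.IsMaximal ∧ f ∉ m := by
    by_contra hcon
    push Not at hcon
    have h1 : f ∈ (⊥ : Ideal B).jacobson := by
      rw [Ideal.jacobson, Submodule.mem_sInf]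
      intro J hJ
      exact hcon J hJ.2
    rw [hjac.out (Ideal.isPrime_bot (α := B)).isRadical] at h1
    exact hf (by simpa using h1)
  obtain ⟨ev, hev⟩ := GE1_ev k B m
  obtain ⟨δ, hδ⟩ := GE1_der k B m ev hev
  refine ⟨m, fun i => b i - algebraMap k B (ev (b i)), hm, fun i => hev (b i), ?_⟩
  intro y hy
  have hevm : ∀ y ∈ m, ev y = 0 := by
    intro y hy
    by_contra h0
    have h1 : algebraMap k B (ev y) ∈ m := by
      have h2 := m.sub_mem hy (hev y)
      rwa [sub_sub_cancel] at h2
    have h2 : (1 : B) ∈ m := by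
      have h3 := m.mul_mem_left (algebraMap k B (ev y)⁻¹) h1
      rwa [← map_mul, inv_mul_cancel₀ h0, map_one] at h3
    exact hm.ne_top ((Ideal.eq_top_iff_one m).2 h2)
  have hδy : δ y = m.toCotangent ⟨y, hy⟩ := by
    rw [hδ]
    congr 1
    apply Subtype.ext
    show y - algebraMap k B (ev y) = y
    rw [hevm y hy, map_zero, sub_zero]
  -- δ y is a combination of the δ (b i)
  have hmem : δ y ∈ Submodule.span B (Set.range fun i => δ (b i)) := by
    have h1 := Submodule.mem_map_of_mem (f := δ.liftKaehlerDifferential)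
      (hfω (KaehlerDifferential.D k B y))
    rw [map_smul, Derivation.liftKaehlerDifferential_comp_D, Submodule.map_span,
      ← Set.range_comp] at h1
    have h2 : (δ.liftKaehlerDifferential ∘ fun i => KaehlerDifferential.D k B (b i)) =
        fun i => δ (b i) := by
      funext i
      exact Derivation.liftKaehlerDifferential_comp_D δ (b i)
    rw [h2] at h1
    have hevf : ev f ≠ 0 := by
      intro h3
      apply hfm
      have h4 := hev f
      rwa [h3, map_zero, sub_zero] at h4
    have h3 : algebraMap k B (ev f)⁻¹ * f - 1 ∈ m := by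
      have h4 := m.mul_mem_left (algebraMap k B (ev f)⁻¹) (hev f)
      rw [mul_sub, ← map_mul, inv_mul_cancel₀ hevf, map_one] at h4
      exact h4
    have h4 : (algebraMap k B (ev f)⁻¹ * f) • δ y = δ y := by
      have h5 := Ideal.Cotangent.smul_eq_zero_of_mem h3 (δ y)
      rw [sub_smul, one_smul, sub_eq_zero] at h5
      exact h5
    rw [← h4, mul_smul]
    exact Submodule.smul_mem _ _ h1
  obtain ⟨c, hc⟩ := (Submodule.mem_span_range_iff_exists_fun B).1 hmem
  refine ⟨fun i => ev (c i), ?_⟩
  have h1 : m.toCotangent ⟨y, hy⟩ = m.toCotangent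
      (∑ i, (algebraMap k B (ev (c i))) • (⟨b i - algebraMap k B (ev (b i)), hev (b i)⟩ : m)) := by
    rw [← hδy, ← hc, map_sum]
    apply Finset.sum_congr rfl
    intro i _
    rw [map_smul, ← hδ]
    have h2 := Ideal.Cotangent.smul_eq_zero_of_mem (hev (c i)) (δ (b i))
    rw [sub_smul, sub_eq_zero] at h2
    exact h2
  rw [Ideal.toCotangent_eq] at h1
  rw [Submodule.coe_sum] at h1
  have h2 : ∑ i, ev (c i) • (b i - algebraMap k B (ev (b i))) =
      ∑ i, (((algebraMap k B (ev (c i))) •
        (⟨b i - algebraMap k B (ev (b i)), hev (b i)⟩ : m) : m) : B) := by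
    apply Finset.sum_congr rfl
    intro i _
    rw [Algebra.smul_def]
    rfl
  rw [h2]
  exact h1

end Pool.Agent.QS
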