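import Pool.Agent.helper4.QS.Spec

/-!
# MP_07c750_an, module LUA: powers of the matrix
-/

open scoped BigOperators ComplexOrder ComplexConjugate Topology

namespace Pool.Agent.QS

open Pool.Agent.helper86.CM Filter

noncomputable section

theorem LUA : LUA_stmt := by
  intro B t hB k n
  induction k with
  | zero =>
    have h1 : ((0 + 1 : ℕ) : ℤ) = 1 := by norm_num
    rw [h1, pw_one]
    simp [lu]
  | succ k ih =>
    have h1 : ((k + 1 + 1 : ℕ) : ℤ) = ((k + 1 : ℕ) : ℤ) + 1 := by push_cast; ring
    have h2 : lu t (k + 1 + 1) = t * lu t (k + 1) - lu t k := rfl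
    rw [h1, pw_succ, ih, map_sub, map_zsmul, map_zsmul, hB.ch, h2]
    module

end

end Pool.Agent.QS
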