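import Pool.Agent.helper4.QS.Spec

/-!
# MP_07c750_an, module PH: phases between different sites
-/

open scoped BigOperators ComplexOrder ComplexConjugate Topology

namespace Pool.Agent.QS

open Pool.Agent.helper86.CM Filter

noncomputable section

theorem PH (hDBL : DBL_stmt) (hNRM : NRM_stmt) (hOMB : OMB_stmt) (hLUL : LUL_stmt) : PH_stmt := by
  intro B t hB
  obtain ⟨C0, hC0, hnrm⟩ := hNRM B t hB
  obtain ⟨⟨hlam, -, -⟩, -, hlu, -⟩ := hLUL t hB.lt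
  have hl0 : 0 < lam t := by linarith
  refine ⟨2 * C0 * lam t, by nlinarith, ?_⟩
  intro s J r i j N x y hs hij hjJ hNk
  obtain ⟨τ, hτ⟩ : ∃ τ, τ = s * (j - i) := ⟨_, rfl⟩
  obtain ⟨k, hk⟩ : ∃ k, k = s * J := ⟨_, rfl⟩
  obtain ⟨κ, hκ⟩ : ∃ κ, κ = s * (J - (j - i)) := ⟨_, rfl⟩
  have hk1 : k = τ + κ := by
    rw [hτ, hk, hκ, ← Nat.mul_add]
    congr 1
    omega
  have hτ1 : 1 ≤ τ := by
    rw [hτ]
    exact Nat.mul_pos (by omega) (by omega)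
  have hκ1 : 1 ≤ κ := by
    rw [hκ]
    exact Nat.mul_pos (by omega) (by omega)
  rw [← hk] at hNk
  rw [← hk, ← hτ, ← hκ]
  obtain ⟨k', hk'⟩ : ∃ k', k = k' + 1 := ⟨k - 1, by omega⟩
  have hN1 : (lam t) ^ k' ≤ (N : ℝ) := by
    have h1 := (hlu k').1
    rw [← hk', ← hNk] at h1
    exact_mod_cast h1
  have hN0 : (0 : ℝ) < N := lt_of_lt_of_le (by positivity) hN1
  have hsj : s * j + r = (s * i + r) + τ := by
    have h1 : s * j = s * i + τ := by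
      rw [hτ, ← Nat.mul_add]
      congr 1
      omega
    omega
  obtain ⟨z, hz⟩ := hDBL B t hB k (pw B (τ : ℤ) x.2)
  rw [← hNk] at hz
  have hx2 : pw B ((τ : ℤ) + k) x.2 = pw B (-(κ : ℤ)) x.2 + ((2 * (N : ℤ)) • z) := by
    rw [add_comm, pw_add, ← hz, ← pw_add B (-(k : ℤ)) τ]
    have h1 : (-(k : ℤ) + τ) = -(κ : ℤ) := by
      rw [hk1]
      push_cast
      ring
    rw [h1]
    abel
  have hom : omega (site B s k r j x) (site B s k r i y) =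
      omega (pw B (τ : ℤ) x.1) y.1 + omega x.1 (pw B (κ : ℤ) y.2) +
      omega (pw B (-(κ : ℤ)) x.2) y.1 + omega (pw B (τ : ℤ) x.2) y.2 +
      (2 * (N : ℤ)) * omega z y.1 := by
    rw [site_apply, site_apply, hsj]
    have h1 : (((s * i + r) + τ : ℕ) : ℤ) = ((s * i + r : ℕ) : ℤ) + τ := by push_cast; ring
    rw [h1, pw_add, pw_om hB, map_add, ← pw_add]
    rw [omega_add_left, omega_add_right, omega_add_right]
    have h2 : omega (pw B (τ : ℤ) x.1) (pw B (k : ℤ) y.2) = omega x.1 (pw B (κ : ℤ) y.2) := by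
      have h3 : (k : ℤ) = τ + κ := by rw [hk1]; push_cast; ring
      rw [h3, pw_add, pw_om hB]
    have h4 : omega (pw B ((τ : ℤ) + k) x.2) (pw B (k : ℤ) y.2) =
        omega (pw B (τ : ℤ) x.2) y.2 := by
      rw [add_comm, pw_add, pw_om hB]
    rw [h2, h4, hx2, omega_add_left, omega_smul_left]
    ring
  refine ⟨omega z y.1, ?_⟩
  have hx1n : ‖x.1‖ ≤ ‖x‖ := norm_fst_le x
  have hx2n : ‖x.2‖ ≤ ‖x‖ := norm_snd_le x
  have hy1n : ‖y.1‖ ≤ ‖y‖ := norm_fst_le y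
  have hy2n : ‖y.2‖ ≤ ‖y‖ := norm_snd_le y
  have key : ∀ (e : ℤ) (m : ℕ) (u v : Lat 1), e.natAbs = m → ‖u‖ ≤ ‖x‖ → ‖v‖ ≤ ‖y‖ →
      |(omega (pw B e u) v : ℝ)| ≤ 2 * C0 * (lam t) ^ m * (‖x‖ * ‖y‖) := by
    intro e m u v he hu hv
    refine (hOMB _ _).trans ?_
    have h1 := hnrm e u
    rw [he] at h1
    have h2 : ‖pw B e u‖ ≤ C0 * lam t ^ m * ‖x‖ :=
      h1.trans (mul_le_mul_of_nonneg_left hu (by positivity))
    calc 2 * ‖pw B e u‖ * ‖v‖ ≤ 2 * (C0 * lam t ^ m * ‖x‖) * ‖y‖ := by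
          apply mul_le_mul _ hv (norm_nonneg _) (by positivity)
          linarith
      _ = 2 * C0 * (lam t) ^ m * (‖x‖ * ‖y‖) := by ring
  have b1 := key τ τ x.1 y.1 (by simp) hx1n hy1n
  have b3 := key (-(κ : ℤ)) κ x.2 y.1 (by simp) hx2n hy1n
  have b4 := key τ τ x.2 y.2 (by simp) hx2n hy2n
  have b2 : |(omega x.1 (pw B (κ : ℤ) y.2) : ℝ)| ≤ 2 * C0 * (lam t) ^ κ * (‖x‖ * ‖y‖) := by
    refine (hOMB _ _).trans ?_
    have h1 := hnrm (κ : ℤ) y.2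
    rw [Int.natAbs_natCast] at h1
    have h2 : ‖pw B (κ : ℤ) y.2‖ ≤ C0 * lam t ^ κ * ‖y‖ :=
      h1.trans (mul_le_mul_of_nonneg_left hy2n (by positivity))
    calc 2 * ‖x.1‖ * ‖pw B (κ : ℤ) y.2‖ ≤ 2 * ‖x‖ * (C0 * lam t ^ κ * ‖y‖) := by
          apply mul_le_mul _ h2 (norm_nonneg _) (by positivity)
          linarith
      _ = 2 * C0 * (lam t) ^ κ * (‖x‖ * ‖y‖) := by ring
  have hval : hN N (site B s k r j x) (site B s k r i y) - ((omega z y.1 : ℤ) : ℝ) =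
      ((omega (pw B (τ : ℤ) x.1) y.1 : ℝ) + omega x.1 (pw B (κ : ℤ) y.2) +
      omega (pw B (-(κ : ℤ)) x.2) y.1 + omega (pw B (τ : ℤ) x.2) y.2) / (2 * N) := by
    unfold hN
    rw [hom]
    push_cast
    field_simp
    ring
  rw [hval, abs_div, abs_of_pos (by positivity : (0 : ℝ) < 2 * N), div_le_iff₀ (by positivity)]
  have hsum : |(omega (pw B (τ : ℤ) x.1) y.1 : ℝ) + omega x.1 (pw B (κ : ℤ) y.2) +
      omega (pw B (-(κ : ℤ)) x.2) y.1 + omega (pw B (τ : ℤ) x.2) y.2| ≤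
      4 * C0 * ((lam t) ^ τ + (lam t) ^ κ) * (‖x‖ * ‖y‖) := by
    refine (abs_add_le _ _).trans ?_
    refine (add_le_add ((abs_add_le _ _).trans (add_le_add (abs_add_le _ _) le_rfl)) le_rfl).trans ?_
    calc _ ≤ 2 * C0 * (lam t) ^ τ * (‖x‖ * ‖y‖) + 2 * C0 * (lam t) ^ κ * (‖x‖ * ‖y‖) +
          2 * C0 * (lam t) ^ κ * (‖x‖ * ‖y‖) + 2 * C0 * (lam t) ^ τ * (‖x‖ * ‖y‖) := by
          gcongr
      _ = _ := by ring
  refine hsum.trans ?_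
  have hτκ : (lam t) ^ τ = ((lam t)⁻¹) ^ κ * (lam t) ^ (k' + 1) := by
    rw [← hk', hk1, pow_add, inv_pow]
    field_simp
  have hκτ : (lam t) ^ κ = ((lam t)⁻¹) ^ τ * (lam t) ^ (k' + 1) := by
    rw [← hk', hk1, pow_add, inv_pow]
    field_simp
  rw [hτκ, hκτ, pow_succ]
  have hq : 0 ≤ 4 * C0 * lam t * (((lam t)⁻¹) ^ τ + ((lam t)⁻¹) ^ κ) * (‖x‖ * ‖y‖) := by
    positivity
  calc 4 * C0 * ((lam t)⁻¹ ^ κ * (lam t ^ k' * lam t) + (lam t)⁻¹ ^ τ * (lam t ^ k' * lam t)) *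
        (‖x‖ * ‖y‖)
      = (4 * C0 * lam t * (((lam t)⁻¹) ^ τ + ((lam t)⁻¹) ^ κ) * (‖x‖ * ‖y‖)) * lam t ^ k' := by
        ring
    _ ≤ (4 * C0 * lam t * (((lam t)⁻¹) ^ τ + ((lam t)⁻¹) ^ κ) * (‖x‖ * ‖y‖)) * N :=
        mul_le_mul_of_nonneg_left hN1 hq
    _ = _ := by ring

end

end Pool.Agent.QS
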