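import Pool.Agent.helper4.QS.Spec

/-!
# MP_07c750_an, module PH0: phases inside a site
-/

open scoped BigOperators ComplexOrder ComplexConjugate Topology

namespace Pool.Agent.QS

open Pool.Agent.helper86.CM Filter

noncomputable section

theorem PH0 (hLUA : LUA_stmt) (hOMB : OMB_stmt) (hLUL : LUL_stmt) : PH0_stmt := by
  intro B t hB
  obtain ⟨⟨hlam, -, -⟩, hl1, hlu, -⟩ := hLUL t hB.lt
  have hl0 : 0 < lam t := by linarith
  refine ⟨4, by norm_num, ?_⟩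
  intro s k r j N x y hk hNk
  obtain ⟨k', rfl⟩ : ∃ k', k = k' + 1 := ⟨k - 1, by omega⟩
  have hNr : (N : ℝ) = (lu t (k' + 1) : ℝ) := by exact_mod_cast hNk
  have hN1 : (lam t) ^ k' ≤ (N : ℝ) := by
    rw [hNr]
    exact (hlu k').1
  have hN0 : (0 : ℝ) < N := lt_of_lt_of_le (by positivity) hN1
  have hq := hl1 k'
  rw [← hNr] at hq
  have hom : omega (site B s (k' + 1) r j x) (site B s (k' + 1) r j y) =
      omega x.1 y.1 + omega x.2 y.2 + ((N : ℤ) * omega x.1 (B y.2) - lu t k' * omega x.1 y.2) -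
      ((N : ℤ) * omega y.1 (B x.2) - lu t k' * omega y.1 x.2) := by
    rw [site_apply, site_apply, pw_om hB, omega_add_left, omega_add_right, omega_add_right,
      pw_om hB, omega_swap (pw B ((k' + 1 : ℕ) : ℤ) x.2) y.1, hLUA B t hB k' y.2,
      hLUA B t hB k' x.2, ← hNk, sub_eq_add_neg ((N : ℤ) • B y.2),
      sub_eq_add_neg ((N : ℤ) • B x.2), omega_add_right, omega_add_right, omega_neg_right,
      omega_neg_right, omega_smul_right, omega_smul_right, omega_smul_right, omega_smul_right]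
    ring
  have hval : hN N (site B s (k' + 1) r j x) (site B s (k' + 1) r j y) - hh B t x y =
      (((omega x.1 y.1 : ℝ) + omega x.2 y.2) +
        ((lam t)⁻¹) ^ (k' + 1) * ((omega x.1 y.2 : ℝ) - omega y.1 x.2)) / (2 * N) := by
    have h1 : ((lam t)⁻¹) ^ (k' + 1) = (lam t)⁻¹ * N - lu t k' := by linarith
    unfold hN hh beta
    rw [hom, h1]
    push_cast
    field_simp
    ring
  rw [hval, abs_div, abs_of_pos (by positivity : (0 : ℝ) < 2 * N), div_le_div_iff₀ (by positivity)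
    hN0]
  have hx1n : ‖x.1‖ ≤ ‖x‖ := norm_fst_le x
  have hx2n : ‖x.2‖ ≤ ‖x‖ := norm_snd_le x
  have hy1n : ‖y.1‖ ≤ ‖y‖ := norm_fst_le y
  have hy2n : ‖y.2‖ ≤ ‖y‖ := norm_snd_le y
  have key : ∀ u v : Lat 1, (‖u‖ ≤ ‖x‖ ∧ ‖v‖ ≤ ‖y‖) ∨ (‖u‖ ≤ ‖y‖ ∧ ‖v‖ ≤ ‖x‖) →
      |(omega u v : ℝ)| ≤ 2 * (‖x‖ * ‖y‖) := by
    intro u v h
    refine (hOMB u v).trans ?_
    have h2 : ‖u‖ * ‖v‖ ≤ ‖x‖ * ‖y‖ := by
      rcases h with ⟨h1, h2⟩ | ⟨h1, h2⟩
      · exact mul_le_mul h1 h2 (norm_nonneg _) (norm_nonneg _)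
      · rw [mul_comm ‖x‖]
        exact mul_le_mul h1 h2 (norm_nonneg _) (norm_nonneg _)
    linarith
  have b1 := key x.1 y.1 (Or.inl ⟨hx1n, hy1n⟩)
  have b2 := key x.2 y.2 (Or.inl ⟨hx2n, hy2n⟩)
  have b3 := key x.1 y.2 (Or.inl ⟨hx1n, hy2n⟩)
  have b4 := key y.1 x.2 (Or.inr ⟨hy1n, hx2n⟩)
  have hpow : ((lam t)⁻¹) ^ (k' + 1) ≤ 1 :=
    pow_le_one₀ (by positivity) (inv_le_one_of_one_le₀ (by linarith))
  have hpow0 : 0 ≤ ((lam t)⁻¹) ^ (k' + 1) := by positivity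
  have b5 : |((lam t)⁻¹) ^ (k' + 1) * ((omega x.1 y.2 : ℝ) - omega y.1 x.2)| ≤
      4 * (‖x‖ * ‖y‖) := by
    rw [abs_mul, abs_of_nonneg hpow0]
    have h1 : |(omega x.1 y.2 : ℝ) - omega y.1 x.2| ≤ 4 * (‖x‖ * ‖y‖) := by
      refine (abs_sub _ _).trans ?_
      linarith
    calc _ ≤ 1 * |(omega x.1 y.2 : ℝ) - omega y.1 x.2| :=
          mul_le_mul_of_nonneg_right hpow (abs_nonneg _)
      _ ≤ _ := by rw [one_mul]; exact h1
  have b6 : |((omega x.1 y.1 : ℝ) + omega x.2 y.2) +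
        ((lam t)⁻¹) ^ (k' + 1) * ((omega x.1 y.2 : ℝ) - omega y.1 x.2)| ≤ 8 * (‖x‖ * ‖y‖) := by
    refine (abs_add_le _ _).trans ?_
    have h1 := abs_add_le (omega x.1 y.1 : ℝ) (omega x.2 y.2)
    linarith
  calc _ ≤ 8 * (‖x‖ * ‖y‖) * (N : ℝ) := mul_le_mul_of_nonneg_right b6 hN0.le
    _ = _ := by ring

end

end Pool.Agent.QS
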